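import Pool.Agent.N875.K17.Stm
import Pool.Agent.N875.X15.Min

/-!
# Project K15 (helper875): the 2-part of the strong conjecture of Birch and Swinnerton-Dyer for `X_0(15)`
# over all the quadratic fields

`E = WN 1 : y² + x y = x³ - 2 x² - 9 x` (`15a1`, minimal, `Δ = 3⁴ 5⁴`), `y² = x (x + 9) (x - 16)`;
`K = ℚ(√m)`, `m ≠ 1` squarefree, of either sign, any residue class. `E_m` is the twist by `m`. The square
classes `(a, b)` of `(x, x + 9)` are used. If `E_m(ℚ)` is finite and `Ш(E_m/ℚ)[2] = 0` (that is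
`Sg15 m`) we want (for `m ≠ -1, 5`) `#Ш(E/K)[2^∞] = 4 ^ (t - δ)`, with `t` the number of the primes
`≠ 5` that ramify in `K`, `δ = 2` if `K` is real and `5` splits in `K`, and `δ = 1` otherwise.
All the parts are independent; each one is the analogue of the part of K17 of the same name
(`Pool/Agent/N875/K17/Stm.lean`; proofs: `N803/K17, N42/K17, N50/K17, N400/K17, N391/K17, N459/K17, N499/K17,
N530/K17, N849/K17, N277/K17, N232/K17`), with `x (x + 1) (x - 16)` replaced by `x (x + 9) (x - 16)`,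
`17` by `5` and one more bad prime `3`.
-/

set_option autoImplicit false
set_option linter.unusedVariables false

open NumberField IsDedekindDomain WeierstrassCurve Filter

namespace Pool.Agent.N875.K15

open scoped Classical

open Pool.Agent.N856.QB (Lo Se)
open Pool.Agent.N875.X15 (PR WN Em)
open Pool.Agent.N875.K17 (Qd C2 Eqv Eul)
open Pool.Agent.Y682.XF (base factor c Tam MinimalAt)

/-- the local condition at the place `w` of `K` for the pair of integers `(a, b)` and the curve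
`y² = x (x + 9) (x - 16)`: there is a point over `K_w` with `x a` and `(x + 9) b` squares (and `y ≠ 0`) -/
def LoE (K : Type) [Field K] [NumberField K] (w : HeightOneSpectrum (𝓞 K)) (a b : ℤ) : Prop :=
  Lo (w.adicCompletion K) 0 (-9) 16 (a : w.adicCompletion K) (b : w.adicCompletion K)

/-- K15-GN. Necessary condition at the places over `p ∤ 30 m` (compare `N42/K17/GN.lean`). -/
def S_GN : Prop := ∀ m : ℤ, Squarefree m → m ≠ 1 → ∀ (K : Type) [Field K] [NumberField K] (r : K),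
  Qd m K r → ∀ p : ℕ, p.Prime → ¬ (p : ℤ) ∣ 30 * m → ∀ w : HeightOneSpectrum (𝓞 K),
  ((p : ℕ) : 𝓞 K) ∈ w.asIdeal → ∀ a b : ℤ, Squarefree a → Squarefree b → LoE K w a b →
  ¬ (p : ℤ) ∣ a ∧ ¬ (p : ℤ) ∣ b

/-- K15-GU. Sufficient condition at the places over `p ∤ 30` (compare `N400/K17/GU.lean`). -/
def S_GU : Prop := ∀ m : ℤ, Squarefree m → m ≠ 1 → ∀ (K : Type) [Field K] [NumberField K] (r : K),
  Qd m K r → ∀ p : ℕ, p.Prime → ¬ p ∣ 30 → ∀ w : HeightOneSpectrum (𝓞 K),
  ((p : ℕ) : 𝓞 K) ∈ w.asIdeal → ∀ a b : ℤ, Squarefree a → Squarefree b →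
  ((p : ℤ) ∣ a → (p : ℤ) ∣ m) → ((p : ℤ) ∣ b → (p : ℤ) ∣ m) → LoE K w a b

/-- K15-2N. Necessary condition at the places over `2` (compare `N50/K17`): the condition `C2` of K17. With
`x = 4 X`, `y = 8 Y + 4 X`, `Y² + X Y = X³ - 2 X² - 9 X`, `t = Y / X`: `4 X + 9 = (2 t + 1)² + 16 + 36 / X`, and
`x + 9 = 9 (1 + 4 X / 9)` if `X` is integral; adding `(0, 0)` is `x ↦ -144 / x`. -/
def S_2N : Prop := ∀ m : ℤ, Squarefree m → m ≠ 1 → ∀ (K : Type) [Field K] [NumberField K] (r : K),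
  Qd m K r → ∀ w : HeightOneSpectrum (𝓞 K), (2 : 𝓞 K) ∈ w.asIdeal →
  ∀ a b : ℤ, Squarefree a → Squarefree b → LoE K w a b → C2 m a b

/-- K15-2U. Sufficient condition at the places over `2` (compare `N499/K17/U2.lean`; the points over `ℚ_2` on
the twists `y² = x (x + 9 m) (x - 16 m)` are in `N875/D15/Lo1.lean`, `Lo2.lean`, for the classes `(u, v)` of
`(x + 9 m, x - 16 m)`; `a = u v`, `b = u`). -/
def S_2U : Prop := ∀ m : ℤ, Squarefree m → m ≠ 1 → ∀ (K : Type) [Field K] [NumberField K] (r : K),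
  Qd m K r → ∀ w : HeightOneSpectrum (𝓞 K), (2 : 𝓞 K) ∈ w.asIdeal →
  ∀ a b : ℤ, Squarefree a → Squarefree b → C2 m a b → LoE K w a b

/-- the condition at `3` (none if `3` ramifies) -/
def C3 (m a b : ℤ) : Prop := (m % 3 = 1 → ¬ (3 : ℤ) ∣ a ∧ ¬ (3 : ℤ) ∣ b) ∧
  (m % 3 = 2 → ((3 : ℤ) ∣ a ↔ (3 : ℤ) ∣ b))

/-- K15-3N. Necessary condition at the places over `3`. `3` split (`K_w = ℚ_3`): the classes of `x` and `x + 9`
are units (`x` not integral: both are squares by Hensel, `x³ · unit` a square; `x` a unit: then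
`x + 9 = x · square` and `x - 16` is a unit or `x = 1` modulo `3`, when `x`, `x + 9` are squares; `x` a
non-unit: `x - 16` is `-1` times a square, so `- x (x + 9)` is a square, `- s (s + 1)` a square with `x = 9 s`:
if `v(s) < 0`: `-1` would be a square; `s` integral: `v(s) = v(s + 1) = 0` or one of the two is `1` modulo
squares up to sign, and the other one is then `±` a square as well). `3` inert (`K_w` the unramified
extension): `-1` is a square, and `x (x + 9)` is a square: `x` not integral or a unit: as `x + 9` is `x` times a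
square; a non-unit: `x - 16` is a square. So the valuations of the classes `a` and `b` agree. -/
def S_3N : Prop := ∀ m : ℤ, Squarefree m → m ≠ 1 → ∀ (K : Type) [Field K] [NumberField K] (r : K),
  Qd m K r → ∀ w : HeightOneSpectrum (𝓞 K), (3 : 𝓞 K) ∈ w.asIdeal →
  ∀ a b : ℤ, Squarefree a → Squarefree b → LoE K w a b → C3 m a b

/-- K15-3U. Sufficient condition at the places over `3`. `3` split or ramified: up to squares of `K_w` (`m` is
one) `a`, `b` are `± 1`, and the four classes have points over `ℚ_3`. `3` inert: the integers prime to `3`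
are squares in `K_w`, the class is `(1, 1)` or `(3, 3)`: for the second a point over `ℚ_3` on
`y² = x (x + 9 m) (x - 16 m)` with the class of `x + 9 m` equal to `3` and `x - 16 m` a square
(`N875/D15`, `m = 2` modulo `3`), divided by `m`. -/
def S_3U : Prop := ∀ m : ℤ, Squarefree m → m ≠ 1 → ∀ (K : Type) [Field K] [NumberField K] (r : K),
  Qd m K r → ∀ w : HeightOneSpectrum (𝓞 K), (3 : 𝓞 K) ∈ w.asIdeal →
  ∀ a b : ℤ, Squarefree a → Squarefree b → C3 m a b → LoE K w a b

/-- the condition at `5` -/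
def C5 (m a : ℤ) : Prop := (jacobiSym m 5 = -1 → ¬ (5 : ℤ) ∣ a) ∧
  (jacobiSym m 5 = 1 → jacobiSym a 5 = 1) ∧
  ((5 : ℤ) ∣ m → (jacobiSym a 5 = 1 ∨ ((5 : ℤ) ∣ a ∧ jacobiSym ((a / 5) * (m / 5)) 5 = 1)))

/-- K15-5N. Necessary condition at the places over `5` (compare `N391/K17/N17.lean`): for every point over `K_w`
the coordinate `x` is a square: if `x` is not integral, by Hensel; if `x` is a non-unit then
`(x + 9) (x - 16) = -144` modulo `w`, a unit square; if `x = 1` in the residue field, clear; otherwise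
`(x + 9) (x - 16) = (x - 1)²` in the residue field. -/
def S_5N : Prop := ∀ m : ℤ, Squarefree m → m ≠ 1 → ∀ (K : Type) [Field K] [NumberField K] (r : K),
  Qd m K r → ∀ w : HeightOneSpectrum (𝓞 K), (5 : 𝓞 K) ∈ w.asIdeal →
  ∀ a b : ℤ, Squarefree a → Squarefree b → LoE K w a b → C5 m a

/-- K15-5U. Sufficient condition at the places over `5` (compare `N459/K17/U17.lean`): `a` is a square in
`K_w`, and for every `b` there is a point over `ℚ_5` with `x` a square and `(x + 9) b` a square. -/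
def S_5U : Prop := ∀ m : ℤ, Squarefree m → m ≠ 1 → ∀ (K : Type) [Field K] [NumberField K] (r : K),
  Qd m K r → ∀ w : HeightOneSpectrum (𝓞 K), (5 : 𝓞 K) ∈ w.asIdeal →
  ∀ a b : ℤ, Squarefree a → Squarefree b → C5 m a → LoE K w a b

/-- K15-INF. The infinite places (compare `N391/K17/INF.lean`). -/
def S_INF : Prop := ∀ m : ℤ, Squarefree m → m ≠ 1 → ∀ (K : Type) [Field K] [NumberField K] (r : K),
  Qd m K r → ∀ v : InfinitePlace K, ∀ a b : ℤ, a ≠ 0 → b ≠ 0 →
  (Lo v.Completion 0 (-9) 16 (a : v.Completion) (b : v.Completion) ↔ (0 < m → 0 < b))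

/-- the number of the primes `≠ 5` that ramify in `ℚ(√m)` (`PR m`: the primes that divide `m`, and `2` if
`m` is not `1 mod 4`) -/
noncomputable def tt (m : ℤ) : ℕ := ((PR m).erase 5).card

/-- `2` if `ℚ(√m)` is real and `5` splits in it, `1` otherwise -/
def dd (m : ℤ) : ℕ := if 0 < m ∧ jacobiSym m 5 = 1 then 2 else 1

/-- the classes -/
structure Rel (m a b : ℤ) : Prop where
  sa : Squarefree a
  sb : Squarefree b
  da : ∀ p : ℕ, p.Prime → p ≠ 2 → p ≠ 3 → p ≠ 5 → (p : ℤ) ∣ a → (p : ℤ) ∣ m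
  db : ∀ p : ℕ, p.Prime → p ≠ 2 → p ≠ 3 → p ≠ 5 → (p : ℤ) ∣ b → (p : ℤ) ∣ m
  c2 : C2 m a b
  c3 : C3 m a b
  c5 : C5 m a
  pos : 0 < m → 0 < b

/-- the signs are such that the sign of the functional equation of `E_m` is `+1` -/
def Rt (m : ℤ) : Prop := (m < 0 ∧ m % 3 = 2 ∧ jacobiSym m 5 = 1) ∨
  (m < 0 ∧ m % 3 ≠ 2 ∧ jacobiSym m 5 ≠ 1) ∨ (0 < m ∧ m % 3 = 2 ∧ jacobiSym m 5 ≠ 1) ∨
  (0 < m ∧ m % 3 ≠ 2 ∧ jacobiSym m 5 = 1)

/-- K15-CNT. The number of the classes is `4 ^ (t + 1 - δ)` (compare `N530/K17`). Let `A'` be the group of the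
squarefree integers generated by `-1` and the ramified primes `≠ 5` (without `3` if `3` is not ramified), modulo `m` if
`5 ∤ m`, and `B'` the group generated by the `q*` for the ramified primes `q`, and by `5`, modulo `m` (`b = 1 mod 4`
up to `m` if `m` is not `3 mod 4`; for `m = 3 mod 4` all the odd `b`).
If `3` is not inert the conditions on `a` and `b` are independent: `a ∈ A'` (with `(a/5) = 1` if `5` is not
inert: half of `A'` by the first hypothesis), `b ∈ B'` (with `b > 0` if `m > 0`: half of `B'` by the second hypothesis).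
If `3` is inert, the pairs are `(a, b)` and `(-3 a, -3 b)` with `a ∈ A'`, `b ∈ B'`, the first if `(a/5) = 1` or `5` is
inert, and `b > 0` or `m < 0`, the second if `(a/5) = -1` or `5` is inert, and `b < 0` or `m < 0`; for `m < 0` every
`b` is allowed, so there are `#A' #B'` pairs if `5` is not inert (case `m < 0`, `5` split; by `Rt`); for `m > 0`:
`5` inert: `#A' #B'`; `5 ∣ m`: `(#A'/2) #B'` by the first hypothesis. -/
def S_CNT : Prop := ∀ m : ℤ, Squarefree m → m ≠ 1 → m ≠ -1 → m ≠ 5 → Rt m →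
  (((5 : ℤ) ∣ m ∨ (0 < m ∧ jacobiSym m 5 = 1 ∧ m % 3 ≠ 2)) →
    ∃ p : ℕ, p ∈ PR m ∧ p ≠ 5 ∧ jacobiSym p 5 = -1) →
  (0 < m ∧ m % 3 ≠ 2 → m % 4 = 3 ∨ ∃ p : ℕ, p.Prime ∧ (p : ℤ) ∣ m ∧ p % 4 = 3) →
  ∃ S : Finset (ℤ × ℤ), (∀ z ∈ S, Rel m z.1 z.2) ∧
    (∀ z ∈ S, ∀ z' ∈ S, Eqv m z.1 z'.1 → Eqv m z.2 z'.2 → z = z') ∧
    (∀ a b : ℤ, Rel m a b → ∃ z ∈ S, Eqv m a z.1 ∧ Eqv m b z.2) ∧
    S.card = 4 ^ (tt m + 1 - dd m)

/-- K15-TOR. The torsion over `K` has order `8` (compare `N849/K17/Tor.lean`): `E(ℚ)_tors` has order `8`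
(structure `ℤ/2 × ℤ/4`: `2 (36, ...) = (16, 0)` on `y² = x (x + 9) (x - 16)`), `E_m(ℚ)_tors = E[2]` (`N875/S15/Tors.lean`:
order `4`), and the classes `(1, -1)`, `(5, 5)` of `(x + 9, x - 16)` of `E(ℚ)/2` stay independent in `K` if
`K` is not `ℚ(i)`, `ℚ(√5)`. -/
def S_TOR : Prop := ∀ m : ℤ, Squarefree m → m ≠ 1 → m ≠ -1 → m ≠ 5 → ∀ (K : Type) [Field K]
  [NumberField K] (r : K), Qd m K r →
  Finite (AddCommGroup.torsion (base (WN 1) K).toAffine.Point) ∧
  Nat.card (AddCommGroup.torsion (base (WN 1) K).toAffine.Point) = 8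

/-- the minimal equation of the twist by `m` -/
def Wm (m : ℤ) : WeierstrassCurve ℤ := if m % 4 = 1 then WN m else Em m

/-- K15-LPR. `L(E/K, s) = L(E/ℚ, s) L(E_m/ℚ, s)` as Euler products (compare `N277/K17`; `ap` of the twists in
`N875/S15/Ap.lean`; at `3` and `5`: `N875/X15/Ap.lean`). -/
def S_LPR : Prop := ∀ m : ℤ, Squarefree m → m ≠ 1 → ∀ (K : Type) [Field K] [NumberField K] (r : K),
  Qd m K r → ∀ (s f g : ℂ), 3 / 2 < s.re → Eul (WN 1) s f → Eul (Wm m) s g →
  HasProd (factor (K := K) (WN 1) s) (f * g)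

/-- the product of the Tamagawa numbers over `ℚ(√m)` -/
def TK (m : ℤ) : ℕ := (if (3 : ℤ) ∣ m then 2 else 4) *
  (if (5 : ℤ) ∣ m then 8 else if jacobiSym m 5 = 1 then 16 else 4)

/-- K15-TAM. The product of the Tamagawa numbers over `K` of `E` (`Δ = 3⁴ 5⁴`): at `3` (not split over `ℚ`):
`3` split: `2 * 2`; inert: `4` (split, `v(Δ) = 4`); ramified: `2` (not split, `v(Δ) = 8`). At `5` (split): `5` split:
`4 * 4`; inert: `4`; ramified: `8` (`v(Δ) = 8`). Compare `N232/K17/Loc.lean` (`Nod.two`, `Nod.four`). -/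
def S_TAM : Prop := ∀ m : ℤ, Squarefree m → m ≠ 1 → ∀ (K : Type) [Field K] [NumberField K] (r : K),
  Qd m K r → {v : HeightOneSpectrum (𝓞 K) | c (WN 1) v ≠ 1}.Finite ∧ Tam K (WN 1) = TK m

/-- K15-MIN. The equation is minimal at all the places of `K` (`v(Δ) ≤ 8 < 12`). -/
def S_MIN : Prop := ∀ m : ℤ, Squarefree m → m ≠ 1 → ∀ (K : Type) [Field K] [NumberField K] (r : K),
  Qd m K r → ∀ v : HeightOneSpectrum (𝓞 K), MinimalAt (WN 1) v

end Pool.Agent.N875.K15
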