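import Pool.Agent.N875.K15.Stm
import Pool.Agent.N875.K17.Rat
import Pool.Agent.N875.S15.One

/-!
# Project K15: the order of the 2-Selmer group over the quadratic field
-/

set_option autoImplicit false
set_option linter.unusedVariables false

open NumberField IsDedekindDomain

namespace Pool.Agent.N875.K15

open scoped Classical

open Pool.Agent.TH841.SH (SelG IsR)
open Pool.Agent.TH841.NF.D (Sha)
open Pool.Agent.N856.QB (Lo Se sqf_of_rat sqf_eq sq_mul_class exists_place S_DESC)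
open Pool.Agent.N875.X15 (PR WN Em)
open Pool.Agent.N809.PQ (Sg15)
open Pool.Agent.N875.D15 (sel_sub15)
open Pool.Agent.N875.S15 (sel_one)
open Pool.Agent.N875.K17 (Qd C2 Eqv S_NRM Se.scale eqv_iff rat_class sq_rat)
open Pool.Agent.Y682.XF (base)

/-- the other pair of coordinates -/
lemma Lo.perm {L : Type} [Field L] {a b c : ℤ} {u v : L} (h : Lo L a b c u v) :
    Lo L b c a v (u * v) := by
  obtain ⟨x, y, hy, he, ⟨s, hs⟩, ⟨t, ht⟩⟩ := h
  have h0 : (x - a) * (x - b) * (x - c) ≠ 0 := by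
    rw [← he]
    exact pow_ne_zero 2 hy
  have ha : x - a ≠ 0 := fun h => h0 (by rw [h]; ring)
  have hb : x - b ≠ 0 := fun h => h0 (by rw [h]; ring)
  refine ⟨x, y, hy, by rw [he]; ring, ⟨t, ht⟩, ⟨y * s * t / ((x - a) * (x - b)), ?_⟩⟩
  rw [div_mul_div_comm, eq_div_iff (mul_ne_zero (mul_ne_zero ha hb) (mul_ne_zero ha hb))]
  have e : y * s * t * (y * s * t) = y ^ 2 * ((s * s) * (t * t)) := by ring
  rw [e, ← hs, ← ht, he]
  ring

section

variable {m : ℤ} {K : Type} [Field K] [NumberField K] {r : K}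

lemma Se.perm {a b c : ℤ} {z : K × K} (h : z ∈ Se K a b c) : (z.2, z.1 * z.2) ∈ Se K b c a := by
  obtain ⟨h1, h2, h3, h4⟩ := h
  refine ⟨h2, mul_ne_zero h1 h2, fun v => ?_, fun v => ?_⟩
  · show Lo _ b c a _ (algebraMap K _ (z.1 * z.2))
    rw [map_mul]
    exact Lo.perm (h3 v)
  · show Lo _ b c a _ (algebraMap K _ (z.1 * z.2))
    rw [map_mul]
    exact Lo.perm (h4 v)

/-- the norms of the Selmer classes are squares -/
theorem norm_sq (hN : S_NRM) (hm : Squarefree m) (h1 : m ≠ 1) (hm1 : m ≠ -1) (h5 : m ≠ 5)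
    (hS : Sg15 m) (hq : Qd m K r) {z : K × K} (hz : z ∈ Se K 0 (-9) 16) :
    IsSquare (Algebra.norm ℚ z.1) ∧ IsSquare (Algebra.norm ℚ z.2) := by
  have hm0 := hm.ne_zero
  have hz2 := Se.perm hz
  have hn1 : Algebra.norm ℚ z.1 ≠ 0 := (Algebra.norm_ne_zero_iff (R := ℚ)).2 hz.1
  have hn2 : Algebra.norm ℚ z.2 ≠ 0 := (Algebra.norm_ne_zero_iff (R := ℚ)).2 hz.2.1
  obtain ⟨u, hu, s, hs, hus⟩ := sqf_of_rat hn2
  obtain ⟨v, hv, t, ht, hvt⟩ := sqf_of_rat (mul_ne_zero hn1 hn2)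
  have g1 : IsSquare (Algebra.norm ℚ z.2 * u) := ⟨u * s, by rw [hus]; ring⟩
  have g2 : IsSquare (Algebra.norm ℚ z.1 * Algebra.norm ℚ z.2 * v) := ⟨v * t, by rw [hvt]; ring⟩
  have g2' : IsSquare (Algebra.norm ℚ (z.1 * z.2) * v) := by
    rw [map_mul]
    exact g2
  have k1 := hN m hm h1 K r hq (-9) 16 0 (by omega) (by omega) (by omega) _ hz2 u v hu hv g1 g2'
  have hz' := Se.scale hm0 hq hz2
  have k2 := hN m hm h1 K r hq _ _ _ (by
      intro h3
      apply hm0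
      linarith) (by
      intro h3
      apply hm0
      linarith) (by
      intro h3
      apply hm0
      linarith) _ hz' u v hu hv g1 g2'
  have k1' := sel_one k1
  rw [zero_mul] at k2
  have k2' := sel_sub15 hm hS k2
  simp only [Set.mem_insert_iff, Set.mem_singleton_iff, Prod.mk.injEq] at k1' k2'
  have huv : u = 1 ∧ v = 1 := by omega
  obtain ⟨rfl, rfl⟩ := huv
  rw [Int.cast_one, mul_one] at g1 g2
  refine ⟨?_, g1⟩
  obtain ⟨x, hx⟩ := g1
  obtain ⟨y, hy⟩ := g2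
  have hx0 : x ≠ 0 := by
    rintro rfl
    exact hn2 (by rw [hx]; ring)
  refine ⟨y / x, ?_⟩
  rw [div_mul_div_comm, eq_div_iff (mul_ne_zero hx0 hx0), ← hy, ← hx]

lemma Se_congr {a b c : ℤ} {z z' : K × K} (h : z ∈ Se K a b c) (h1 : z'.1 ≠ 0) (h2 : z'.2 ≠ 0)
    (g1 : IsSquare (z.1 * z'.1)) (g2 : IsSquare (z.2 * z'.2)) : z' ∈ Se K a b c :=
  Pool.Agent.N856.QB.Se.congr h h1 h2 g1 g2

lemma not_dvd30 {p : ℕ} (hp : p.Prime) (hp2 : p ≠ 2) (hp3 : p ≠ 3) (hp5 : p ≠ 5) : ¬ p ∣ 30 := by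
  intro h5
  have h5' : p ∣ 2 * (3 * 5) := h5
  rcases hp.dvd_mul.1 h5' with h6 | h6
  · exact hp2 ((Nat.prime_dvd_prime_iff_eq hp Nat.prime_two).1 h6)
  · rcases hp.dvd_mul.1 h6 with h7 | h7
    · exact hp3 ((Nat.prime_dvd_prime_iff_eq hp Nat.prime_three).1 h7)
    · exact hp5 ((Nat.prime_dvd_prime_iff_eq hp (by norm_num)).1 h7)

/-- every class has a representative -/
theorem exists_rep (hNRM : S_NRM) (hGN : S_GN) (h2N : S_2N) (h3N : S_3N) (h5N : S_5N)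
    (hINF : S_INF) (hm : Squarefree m) (h1 : m ≠ 1) (hm1 : m ≠ -1) (h5 : m ≠ 5) (hS : Sg15 m)
    (hq : Qd m K r) {z : K × K} (hz : z ∈ Se K 0 (-9) 16) :
    ∃ a b : ℤ, Rel m a b ∧ IsSquare (z.1 * (a : K)) ∧ IsSquare (z.2 * (b : K)) := by
  have key : ∀ x : K, x ≠ 0 → IsSquare (Algebra.norm ℚ x) → ∃ a : ℤ, Squarefree a ∧
      IsSquare (x * (a : K)) := by
    intro x hx hN
    obtain ⟨q, hq0, hxq⟩ := rat_class hm h1 hq hx hN
    obtain ⟨u, hu, s, hs, rfl⟩ := sqf_of_rat hq0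
    have hs' : (s : K) ≠ 0 := by exact_mod_cast hs
    refine ⟨u, hu, ?_⟩
    obtain ⟨t, ht⟩ := hxq
    refine ⟨t / s, ?_⟩
    push_cast at ht
    rw [div_mul_div_comm, eq_div_iff (mul_ne_zero hs' hs')]
    linear_combination ht
  obtain ⟨g1, g2⟩ := norm_sq hNRM hm h1 hm1 h5 hS hq hz
  obtain ⟨a, ha, ha2⟩ := key z.1 hz.1 g1
  obtain ⟨b, hb, hb2⟩ := key z.2 hz.2.1 g2
  have haK : (a : K) ≠ 0 := by exact_mod_cast ha.ne_zero
  have hbK : (b : K) ≠ 0 := by exact_mod_cast hb.ne_zero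
  have hS' : ((a : K), (b : K)) ∈ Se K 0 (-9) 16 := Se_congr hz haK hbK ha2 hb2
  have hLo : ∀ w : HeightOneSpectrum (𝓞 K), LoE K w a b := by
    intro w
    have := hS'.2.2.1 w
    simp only [map_intCast] at this
    exact this
  have hLi : ∀ v : InfinitePlace K, Lo v.Completion 0 (-9) 16
      (a : v.Completion) (b : v.Completion) := by
    intro w
    have := hS'.2.2.2 w
    simp only [map_intCast] at this
    exact this
  have hgood : ∀ p : ℕ, p.Prime → p ≠ 2 → p ≠ 3 → p ≠ 5 → ¬ (p : ℤ) ∣ m →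
      ¬ (p : ℤ) ∣ a ∧ ¬ (p : ℤ) ∣ b := by
    intro p hp hp2 hp3 hp5 hpm
    obtain ⟨w, hw⟩ := exists_place (K := K) hp
    refine hGN m hm h1 K r hq p hp ?_ w hw a b ha hb (hLo w)
    intro h3
    have hpz := Nat.prime_iff_prime_int.1 hp
    rcases hpz.dvd_or_dvd h3 with h4 | h4
    · exact not_dvd30 hp hp2 hp3 hp5 (by exact_mod_cast h4)
    · exact hpm h4
  obtain ⟨w2, hw2⟩ := exists_place (K := K) Nat.prime_two
  obtain ⟨w3, hw3⟩ := exists_place (K := K) Nat.prime_three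
  obtain ⟨w5, hw5⟩ := exists_place (K := K) (show Nat.Prime 5 by norm_num)
  obtain ⟨v⟩ : Nonempty (InfinitePlace K) := inferInstance
  refine ⟨a, b, ⟨ha, hb, ?_, ?_, ?_, ?_, ?_, ?_⟩, ha2, hb2⟩
  · intro p hp hp2 hp3 hp5 hpa
    by_contra h3
    exact (hgood p hp hp2 hp3 hp5 h3).1 hpa
  · intro p hp hp2 hp3 hp5 hpa
    by_contra h3
    exact (hgood p hp hp2 hp3 hp5 h3).2 hpa
  · exact h2N m hm h1 K r hq w2 (by exact_mod_cast hw2) a b ha hb (hLo w2)
  · exact h3N m hm h1 K r hq w3 (by exact_mod_cast hw3) a b ha hb (hLo w3)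
  · exact h5N m hm h1 K r hq w5 (by exact_mod_cast hw5) a b ha hb (hLo w5)
  · exact (hINF m hm h1 K r hq v a b ha.ne_zero hb.ne_zero).1 (hLi v)

/-- the pairs of `Rel` are in the Selmer group -/
theorem suf (hGU : S_GU) (h2U : S_2U) (h3U : S_3U) (h5U : S_5U) (hINF : S_INF)
    (hm : Squarefree m) (h1 : m ≠ 1) (hq : Qd m K r) {a b : ℤ} (hR : Rel m a b) :
    ((a : K), (b : K)) ∈ Se K 0 (-9) 16 := by
  have ha0 := hR.sa.ne_zero
  have hb0 := hR.sb.ne_zero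
  have hLo : ∀ w : HeightOneSpectrum (𝓞 K), LoE K w a b := by
    intro w
    obtain ⟨p, hp, hpw⟩ := Pool.Agent.Y682.exists_prime_mem w
    by_cases hp2 : p = 2
    · subst hp2
      exact h2U m hm h1 K r hq w (by exact_mod_cast hpw) a b hR.sa hR.sb hR.c2
    by_cases hp3 : p = 3
    · subst hp3
      exact h3U m hm h1 K r hq w (by exact_mod_cast hpw) a b hR.sa hR.sb hR.c3
    by_cases hp5 : p = 5
    · subst hp5
      exact h5U m hm h1 K r hq w (by exact_mod_cast hpw) a b hR.sa hR.sb hR.c5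
    exact hGU m hm h1 K r hq p hp (not_dvd30 hp hp2 hp3 hp5) w hpw a b hR.sa hR.sb
      (hR.da p hp hp2 hp3 hp5) (hR.db p hp hp2 hp3 hp5)
  refine ⟨(Int.cast_ne_zero.2 ha0 : (a : K) ≠ 0), (Int.cast_ne_zero.2 hb0 : (b : K) ≠ 0),
    fun w => ?_, fun w => ?_⟩
  · simp only [map_intCast]
    exact hLo w
  · simp only [map_intCast]
    exact (hINF m hm h1 K r hq w a b ha0 hb0).2 hR.pos

/-- the model with rational points of order two -/
lemma isR_K : IsR (base (Em 1) K) ((0 : ℤ) : K) ((-9 : ℤ) : K) ((16 : ℤ) : K) := by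
  refine ⟨?_, ?_, ?_, ?_, ?_⟩ <;> simp [Em] <;> norm_num

/-- **The order of `Ш[2]` over the quadratic field.** -/
theorem sha_two (hDESC : S_DESC) (hNRM : S_NRM) (hGN : S_GN) (h2N : S_2N) (h3N : S_3N)
    (h5N : S_5N) (hGU : S_GU) (h2U : S_2U) (h3U : S_3U) (h5U : S_5U) (hINF : S_INF)
    (hm : Squarefree m) (h1 : m ≠ 1) (hm1 : m ≠ -1) (h5 : m ≠ 5) (hS : Sg15 m) (hq : Qd m K r)
    (hfin : Finite (base (Em 1) K).toAffine.Point) {S : Finset (ℤ × ℤ)} {k : ℕ}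
    (hS1 : ∀ z ∈ S, Rel m z.1 z.2)
    (hS2 : ∀ z ∈ S, ∀ z' ∈ S, Eqv m z.1 z'.1 → Eqv m z.2 z'.2 → z = z')
    (hS3 : ∀ a b : ℤ, Rel m a b → ∃ z ∈ S, Eqv m a z.1 ∧ Eqv m b z.2) (hk : S.card = k) :
    Finite {x : Sha (base (Em 1) K) // 2 • x = 0} ∧
    4 * Nat.card {x : Sha (base (Em 1) K) // 2 • x = 0} = k := by
  set f : ℤ × ℤ → K × K := fun z => ((z.1 : K), (z.2 : K)) with hf
  have hfi : Function.Injective f := by
    rintro ⟨a, b⟩ ⟨a', b'⟩ he
    have e1 : (a : K) = (a' : K) := (Prod.mk.inj he).1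
    have e2 : (b : K) = (b' : K) := (Prod.mk.inj he).2
    have e3 : a = a' := by exact_mod_cast e1
    have e4 : b = b' := by exact_mod_cast e2
    subst e3 e4
    rfl
  obtain ⟨g1, g2⟩ := hDESC K (base (Em 1) K) 0 (-9) 16 (by omega)
    (by omega) (by omega) isR_K hfin (S.image f) (fun z hz => by
      obtain ⟨t, ht, rfl⟩ := Finset.mem_image.1 hz
      exact suf hGU h2U h3U h5U hINF hm h1 hq (hS1 t ht)) (fun z hz z' hz' k1 k2 => by
      obtain ⟨t, ht, rfl⟩ := Finset.mem_image.1 hz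
      obtain ⟨t', ht', rfl⟩ := Finset.mem_image.1 hz'
      have e1 := (eqv_iff hm h1 hq).1 k1
      have e2 := (eqv_iff hm h1 hq).1 k2
      rw [hS2 t ht t' ht' e1 e2]) (fun z hz => by
      obtain ⟨a, b, k1, k2, k3⟩ := exists_rep hNRM hGN h2N h3N h5N hINF hm h1 hm1 h5 hS hq hz
      obtain ⟨t, ht, e1, e2⟩ := hS3 a b k1
      refine ⟨f t, Finset.mem_image_of_mem f ht, ?_, ?_⟩
      · exact sq_mul_class (by exact_mod_cast k1.sa.ne_zero) ((eqv_iff hm h1 hq).2 e1) k2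
      · exact sq_mul_class (by exact_mod_cast k1.sb.ne_zero) ((eqv_iff hm h1 hq).2 e2) k3)
  refine ⟨g1, ?_⟩
  rw [← g2, Finset.card_image_of_injective _ hfi, hk]

end

end Pool.Agent.N875.K15
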