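import Pool.Agent.N875.K15.Stm
import Pool.Agent.N875.K17.Val
import Pool.Agent.N875.S15.Asm
import Pool.Agent.N871.S15.Tors

/-!
# Project K15 (helper875): the central value over the quadratic field
-/

set_option autoImplicit false
set_option linter.unusedVariables false

open NumberField IsDedekindDomain Module NumberField.InfinitePlace

namespace Pool.Agent.N875.K15

open scoped Classical

open Pool.Agent.N875.X15 (PR WN Em)
open Pool.Agent.N809.PQ (Sg15)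
open Pool.Agent.N875.K17 (Qd Dm discr_Dm nr_neg nr_pos per OmK anO real_eq)
open Pool.Agent.Y682.XF (base factor Tam realPeriod)
open Pool.Agent.Y700 (IsL Omega)
open Pool.Agent.N875.S15 (TT)

/-- the value of the curve itself -/
def S_VAL1 : Prop := ∃ f : ℂ → ℂ, IsL (WN 1) f ∧ 8 * f 1 = ((Omega (WN 1) : ℝ) : ℂ)

/-- the values of the twists: `16 L(E_m, 1) = y² ∏ c_p Ω` -/
def S_VAL : Prop := ∀ m : ℤ, Squarefree m → m ≠ 1 → m ≠ -1 → ∃ (f : ℂ → ℂ) (y : ℤ), IsL (Wm m) f ∧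
  16 * f 1 = ((y ^ 2 * TT m : ℤ) : ℂ) * ((Omega (Wm m) : ℝ) : ℂ) ∧ (Odd y ↔ Sg15 m) ∧
  (¬ Rt m → y = 0)

theorem c4_Wm (m : ℤ) : (Wm m).c₄ = 481 * (Dm m) ^ 2 := by
  unfold Wm Dm
  split_ifs with h
  · exact Pool.Agent.N875.S15.c4_WN h
  · rw [Pool.Agent.N875.X15.c4_Em]
    ring

theorem c6_Wm (m : ℤ) : (Wm m).c₆ = 4879 * (Dm m) ^ 3 := by
  unfold Wm Dm
  split_ifs with h
  · exact Pool.Agent.N875.S15.c6_WN h
  · rw [Pool.Agent.N875.X15.c6_Em]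
    ring

/-- the period lattice of `E` and the real periods of `E` and its twists -/
theorem periods : ∃ (L : PeriodPair) (Op Om : ℝ), 0 < Op ∧ 0 < Om ∧
    L.g₂ = ((481 : ℤ) : ℂ) / 12 ∧ L.g₃ = ((4879 : ℤ) : ℂ) / 216 ∧
    (∀ w : ℂ, w ∈ L.lattice ↔ ∃ a b : ℤ, w = a * Op + b * Om * Complex.I) ∧
    Omega (WN 1) = 2 * Op ∧
    (∀ m : ℤ, 0 < m → Omega (Wm m) = 2 * Op / √((Dm m).natAbs : ℝ)) ∧
    (∀ m : ℤ, m < 0 → Omega (Wm m) = 2 * Om / √((Dm m).natAbs : ℝ)) := by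
  obtain ⟨L, Op, Om, hOp, hOm, g2', g3', hL⟩ := Pool.Agent.N975.Lat15.s_lat
  have g2 : L.g₂ = ((481 : ℤ) : ℂ) / 12 := by rw [g2']; push_cast; rfl
  have g3 : L.g₃ = ((4879 : ℤ) : ℂ) / 216 := by rw [g3']; push_cast; rfl
  have hDpos : ∀ m : ℤ, 0 < m → 0 < Dm m := by
    intro m hm
    unfold Dm
    split_ifs <;> omega
  have hDneg : ∀ m : ℤ, m < 0 → Dm m < 0 := by
    intro m hm
    unfold Dm
    split_ifs <;> omega
  refine ⟨L, Op, Om, hOp, hOm, g2, g3, hL, ?_, fun m hm => ?_, fun m hm => ?_⟩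
  · have h := Pool.Agent.N971.EX.omega_pos L Op Om hOp hOm g2 g3 hL 1 one_pos (WN 1)
      (by rw [Pool.Agent.N875.S15.c4_WN (by norm_num)]; norm_num)
      (by rw [Pool.Agent.N875.S15.c6_WN (by norm_num)]; norm_num)
    rw [h]
    simp
  · have h1 := hDpos m hm
    have h2 : (((Dm m).natAbs : ℕ) : ℤ) = Dm m := by omega
    exact Pool.Agent.N971.EX.omega_pos L Op Om hOp hOm g2 g3 hL (Dm m).natAbs (by omega) (Wm m)
      (by rw [c4_Wm, h2]) (by rw [c6_Wm, h2])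
  · have h1 := hDneg m hm
    have h2 : (((Dm m).natAbs : ℕ) : ℤ) = -Dm m := by omega
    exact Pool.Agent.N971.EX.omega_neg L Op Om hOp hOm g2 g3 hL (Dm m).natAbs (by omega) (Wm m)
      (by rw [c4_Wm, h2]; ring) (by rw [c6_Wm, h2]; ring)

theorem jac5_iff (m : ℤ) : jacobiSym m 5 = 1 ↔ m % 5 = 1 ∨ m % 5 = 4 := by
  rw [jacobiSym.mod_left]
  have h5 : m % 5 = 0 ∨ m % 5 = 1 ∨ m % 5 = 2 ∨ m % 5 = 3 ∨ m % 5 = 4 := by omega
  push_cast
  rcases h5 with h5 | h5 | h5 | h5 | h5 <;> rw [h5] <;> norm_num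

theorem tt_dvd {m : ℤ} (h0 : m ≠ 0) (h : (5 : ℤ) ∣ m) : (PR m).card = tt m + 1 := by
  have hp : (5 : ℕ) ∈ PR m := by
    rw [Pool.Agent.N875.X15.mem_PR h0]
    exact ⟨by norm_num, Or.inl (by exact_mod_cast h)⟩
  unfold tt
  rw [Finset.card_erase_of_mem hp]
  have := Finset.card_pos.2 ⟨5, hp⟩
  omega

theorem tt_ndvd {m : ℤ} (h0 : m ≠ 0) (h : ¬ (5 : ℤ) ∣ m) : (PR m).card = tt m := by
  have hp : (5 : ℕ) ∉ PR m := by
    rw [Pool.Agent.N875.X15.mem_PR h0]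
    rintro ⟨-, h1 | h1⟩
    · exact h (by exact_mod_cast h1)
    · exact absurd h1.1 (by norm_num)
  unfold tt
  rw [Finset.erase_eq_of_notMem hp]

theorem PR_Kd {m : ℤ} (h0 : m ≠ 0) : (Pool.Agent.N218.T21.Kd m).primeFactors = PR m := by
  unfold Pool.Agent.N218.T21.Kd PR
  split_ifs with h
  · rfl
  · have hk : m.natAbs ≠ 0 := Int.natAbs_ne_zero.2 h0
    have e : 4 * m.natAbs = 2 ^ 2 * m.natAbs := by omega
    rw [e, Nat.primeFactors_mul (by norm_num) hk, Nat.primeFactors_mul (by norm_num) hk,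
      Nat.primeFactors_pow 2 (by norm_num)]

/-- **the comparison of the Tamagawa numbers** -/
theorem TT_TK {m : ℤ} (h0 : m ≠ 0) (hR : Rt m) :
    4 ^ dd m * TT m = 4 ^ tt m * ((if 0 < m then 2 else 1) * TK m) := by
  unfold TT Pool.Agent.N218.T15.t3 Pool.Agent.N218.T15.t5
  rw [PR_Kd h0]
  unfold Rt at hR
  unfold TK dd
  have h5 := jac5_iff m
  simp only [ne_eq, h5] at hR ⊢
  by_cases d5 : (5 : ℤ) ∣ m
  · have e5 : ¬ (m % 5 = 1 ∨ m % 5 = 4) := by omega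
    rw [tt_dvd h0 d5]
    simp only [d5, e5, and_false, if_true, if_false, pow_succ]
    split_ifs <;> omega
  · rw [tt_ndvd h0 d5]
    simp only [d5, if_false]
    split_ifs <;> omega

theorem TK_pos (m : ℤ) : 0 < TK m := by
  unfold TK
  refine Nat.mul_pos ?_ ?_ <;> split_ifs <;> norm_num

/-- **The central value.** -/
theorem val_main (hLPR : S_LPR) (hTAM : S_TAM) (hTOR : S_TOR) (hV1 : S_VAL1) (hV : S_VAL)
    {m : ℤ} (hm : Squarefree m) (h1 : m ≠ 1) (hm1 : m ≠ -1) (hm5 : m ≠ 5)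
    {K : Type} [Field K] [NumberField K] {r : K} (hq : Qd m K r) :
    ∃ (L : ℂ → ℂ) (y : ℤ),
      (Differentiable ℂ L ∧ ∀ s : ℂ, 3 / 2 < s.re → HasProd (factor (K := K) (WN 1) s) (L s)) ∧
      (Odd y ↔ Sg15 m) ∧
      (∃ Λ : PeriodPair, Λ.g₂ = ((WN 1).c₄ : ℂ) / 12 ∧ Λ.g₃ = ((WN 1).c₆ : ℂ) / 216) ∧
      (∀ Λ : PeriodPair, Λ.g₂ = ((WN 1).c₄ : ℂ) / 12 ∧ Λ.g₃ = ((WN 1).c₆ : ℂ) / 216 →
        0 < OmK K (WN 1) Λ ∧
        4 ^ dd m * anO K (WN 1) (L 1) Λ = ((4 ^ tt m * (y : ℚ) ^ 2 : ℚ) : ℂ)) := by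
  obtain ⟨f, hf, hf1⟩ := hV1
  obtain ⟨g, y, hg, hg1, hy, hy0⟩ := hV m hm h1 hm1
  obtain ⟨L0, Op, Om, hOp, hOm, g2, g3, hLt, hΩ1, hΩp, hΩn⟩ := periods
  have hm0 : m ≠ 0 := hm.ne_zero
  have c4 : (((WN 1).c₄ : ℤ) : ℂ) / 12 = ((481 : ℤ) : ℂ) / 12 := by
    rw [Pool.Agent.N875.S15.c4_WN (by norm_num)]
    norm_num
  have c6 : (((WN 1).c₆ : ℤ) : ℂ) / 216 = ((4879 : ℤ) : ℂ) / 216 := by
    rw [Pool.Agent.N875.S15.c6_WN (by norm_num)]
    norm_num
  have hper : ∀ Λ : PeriodPair, Λ.g₂ = ((WN 1).c₄ : ℂ) / 12 ∧ Λ.g₃ = ((WN 1).c₆ : ℂ) / 216 →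
      per Λ = 2 * (Op * Om) := by
    rintro Λ ⟨e1, e2⟩
    exact Pool.Agent.N873.F15.Va.area hOp hOm hLt (by rw [e1, c4, g2]) (by rw [e2, c6, g3])
  have hD0 : (0 : ℝ) < ((Dm m).natAbs : ℝ) := by
    have : Dm m ≠ 0 := by
      unfold Dm
      split_ifs <;> omega
    have : 0 < (Dm m).natAbs := by omega
    exact_mod_cast this
  have hsD : (0 : ℝ) < √((Dm m).natAbs : ℝ) := Real.sqrt_pos.2 hD0
  have hdisc : |((discr K : ℤ) : ℝ)| = ((Dm m).natAbs : ℝ) := by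
    rw [discr_Dm hm h1 hq, ← Int.cast_abs, Int.abs_eq_natAbs, Int.cast_natCast]
  have htor : (Nat.card (AddCommGroup.torsion (base (WN 1) K).toAffine.Point) : ℂ) = 8 := by
    have := (hTOR m hm h1 hm1 hm5 K r hq).2
    exact_mod_cast this
  have htam := (hTAM m hm h1 K r hq).2
  have hTK : ((TK m : ℕ) : ℂ) ≠ 0 := by exact_mod_cast (TK_pos m).ne'
  refine ⟨fun s => f s * g s, y, ⟨hf.1.mul hg.1, fun s hs => ?_⟩, hy,
    ⟨L0, by rw [g2, c4], by rw [g3, c6]⟩, fun Λ hΛ => ?_⟩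
  · exact hLPR m hm h1 K r hq s _ _ hs (hf.2 s hs) (hg.2 s hs)
  · have hp := hper Λ hΛ
    have o1 : (Op : ℂ) ≠ 0 := by exact_mod_cast hOp.ne'
    have o2 : (Om : ℂ) ≠ 0 := by exact_mod_cast hOm.ne'
    have o3 : ((√((Dm m).natAbs : ℝ) : ℝ) : ℂ) ≠ 0 := by exact_mod_cast hsD.ne'
    have hfv : f 1 = (Op : ℂ) / 4 := by
      rw [hΩ1] at hf1
      push_cast at hf1
      linear_combination (1 / 8 : ℂ) * hf1
    have hTT : ∀ _ : Rt m, ((4 : ℂ) ^ dd m * (TT m : ℂ)) =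
        4 ^ tt m * ((if 0 < m then 2 else 1) * (TK m : ℂ)) := by
      intro hR
      have := TT_TK hm0 hR
      have h2 := congrArg (fun n : ℕ => (n : ℂ)) this
      push_cast at h2
      exact h2
    rcases lt_or_gt_of_ne hm0 with hneg | hpos
    · obtain ⟨r1, r2⟩ := nr_neg hm h1 hneg hq
      have hO : OmK K (WN 1) Λ = 2 * (Op * Om) := by
        unfold OmK
        rw [r1, r2, hp, pow_zero, pow_one, one_mul]
      refine ⟨by rw [hO]; positivity, ?_⟩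
      have hgv : g 1 = (y : ℂ) ^ 2 * (TT m : ℂ) * Om /
          (8 * ((√((Dm m).natAbs : ℝ) : ℝ) : ℂ)) := by
        rw [hΩn m hneg] at hg1
        push_cast at hg1
        rw [eq_div_iff (mul_ne_zero (by norm_num) o3)]
        field_simp at hg1
        linear_combination (1 / 2 : ℂ) * hg1
      unfold anO
      rw [hO, hdisc, htor, htam]
      show 4 ^ dd m * (f 1 * g 1 * _ * _ / _) = _
      rw [hfv, hgv]
      by_cases hR : Rt m
      · have h9 := hTT hR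
        rw [if_neg (by omega)] at h9
        push_cast
        field_simp
        linear_combination (8 * (y : ℂ) ^ 2) * h9
      · rw [hy0 hR]
        simp
    · obtain ⟨r1, r2⟩ := nr_pos hm h1 hpos hq
      have hO : OmK K (WN 1) Λ = (2 * Op) ^ 2 := by
        unfold OmK
        rw [r1, r2, real_eq, hΩ1, pow_zero, mul_one]
      refine ⟨by rw [hO]; positivity, ?_⟩
      have hgv : g 1 = (y : ℂ) ^ 2 * (TT m : ℂ) * Op /
          (8 * ((√((Dm m).natAbs : ℝ) : ℝ) : ℂ)) := by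
        rw [hΩp m hpos] at hg1
        push_cast at hg1
        rw [eq_div_iff (mul_ne_zero (by norm_num) o3)]
        field_simp at hg1
        linear_combination (1 / 2 : ℂ) * hg1
      unfold anO
      rw [hO, hdisc, htor, htam]
      show 4 ^ dd m * (f 1 * g 1 * _ * _ / _) = _
      rw [hfv, hgv]
      by_cases hR : Rt m
      · have h9 := hTT hR
        rw [if_pos hpos] at h9
        push_cast
        field_simp
        linear_combination (8 * (y : ℂ) ^ 2) * h9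
      · rw [hy0 hR]
        simp

end Pool.Agent.N875.K15
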