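import Pool.Agent.N875.K15.Thm
import Pool.Agent.N875.S15.Strong
import Pool.Agent.N969.P15.QF

/-!
# Project K15 (helper875): the criterion with the class group of `K`
-/

set_option autoImplicit false

open NumberField Module

namespace Pool.Agent.N875.K15

open Pool.Agent.N875.X15 (Fin2 WN Em EQm Ao Ae qc_P15 qc_iff_class qe_iff_class crit_ao_N crit_ae)
open Pool.Agent.N809.PQ (Sg15)
open Pool.Agent.N875.S15 (fin2_EE)
open Pool.Agent.N218.T15 (EE)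
open Pool.Agent.N875.D15 (mQ mQ_odd mQ_even)

/-- the curve with the minimal equation -/
theorem cls_EE {m : ℤ} (hs : Squarefree m) (hneg : m < 0) (c3 : m % 3 ≠ 2)
    (c5 : ¬ (m % 5 = 1 ∨ m % 5 = 4)) (K : Type) [Field K] [NumberField K] (h6 : finrank ℚ K = 2)
    (h7 : ∃ s : K, s ^ 2 = (m : K)) :
    Fin2 ((EE m).map (Int.castRingHom ℚ)) ↔ ∀ c : ClassGroup (𝓞 K), c ^ 4 = 1 → c ^ 2 = 1 := by
  obtain ⟨n, hn, rfl⟩ := Pool.Agent.N875.D15.exists_Ng hs hneg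
  have h3 : ¬ Pool.Agent.N809.PQ.B3 (-(mQ n : ℤ)) := c3
  have h5 : ¬ Pool.Agent.N809.PQ.B5 (-(mQ n : ℤ)) := by
    unfold Pool.Agent.N809.PQ.B5
    omega
  obtain ⟨d3, d5⟩ := Pool.Agent.N875.D15.cls_neg hn h3 h5
  rcases hn with ⟨h1, h2⟩ | h1
  · have h2' : ¬ 2 ∣ n := by omega
    have em := mQ_odd h2'
    rw [em] at h7 ⊢
    have hao : Ao n := ⟨h1, h2, d3, d5⟩
    have e : EE (-(n : ℤ)) = Pool.Agent.N875.X15.WN (-(n : ℤ)) := if_pos (by omega)
    have h0 : 0 < n := Nat.pos_of_ne_zero hao.1.ne_zero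
    have h9 : ∃ s : K, s ^ 2 = -(n : K) := by
      obtain ⟨s, hs⟩ := h7
      refine ⟨s, ?_⟩
      rw [hs]
      push_cast
      rfl
    rw [e, qc_iff_class hao.1 hao.2.1 K h6 h9]
    exact (crit_ao_N hao).trans (by rw [qc_P15 h0.ne'])
  · have h2' : 2 ∣ n := by
      obtain ⟨k, rfl, -⟩ := h1
      omega
    have em := mQ_even h2'
    rw [em] at h7 ⊢
    have hae : Ae n := ⟨h1, d3, d5⟩
    have e : EE (-((n / 4 : ℕ) : ℤ)) = Pool.Agent.N875.X15.Em (-((n / 4 : ℕ) : ℤ)) := if_neg (by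
      obtain ⟨k, rfl, -, hk⟩ := h1
      have e4 : 4 * k / 4 = k := by omega
      rw [e4]
      omega)
    have hn4 : n ≠ 4 := by
      have := hae.2.1
      omega
    have h9 : ∃ s : K, s ^ 2 = -((n / 4 : ℕ) : K) := by
      obtain ⟨s, hs⟩ := h7
      refine ⟨s, ?_⟩
      rw [hs, Int.cast_neg, Int.cast_natCast]
    rw [e, qe_iff_class hae.1 hn4 K h6 h9]
    exact crit_ae hae

/-- **the criterion with the class group** -/
theorem cls {m : ℤ} (hs : Squarefree m) (hm1 : m ≠ -1) (hneg : m < 0) (c3 : m % 3 ≠ 2)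
    (c5 : jacobiSym m 5 ≠ 1) (K : Type) [Field K] [NumberField K] (h6 : finrank ℚ K = 2)
    (h7 : ∃ s : K, s ^ 2 = (m : K)) :
    Sg15 m ↔ ∀ c : ClassGroup (𝓞 K), c ^ 4 = 1 → c ^ 2 = 1 := by
  rw [← cls_EE hs hneg c3 (fun h => c5 ((jac5_iff m).2 h)) K h6 h7, fin2_EE hs,
    Pool.Agent.N875.D15.fin2_iff_sg15 hs]
  exact ⟨Or.inl, fun h => h.resolve_right (by rintro (h | h) <;> omega)⟩

end Pool.Agent.N875.K15
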