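import Pool.Agent.N875.K15.Fin0
import Pool.Agent.N531.K15.U2
import Pool.Agent.N152.K15.Tam

/-!
# Project K15: all the parts together
-/

set_option autoImplicit false

namespace Pool.Agent.N875.K15

theorem hyps : Hyps := hyps0 Pool.Agent.N531.K15.t_2U Pool.Agent.N152.K15.t_TAM

end Pool.Agent.N875.K15
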