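import Pool.Agent.N875.K15.Val
import Pool.Agent.N871.S15.OneV

/-!
# Project K15 (helper875): the value of `X_0(15)`
-/

set_option autoImplicit false

namespace Pool.Agent.N875.K15

open Pool.Agent.N875.X15 (WN)
open Pool.Agent.N218.T15 (EE)

theorem EE_one : EE 1 = WN 1 := if_pos (by norm_num)

theorem t_VAL1 : S_VAL1 := by
  obtain ⟨-, f, hf, hv⟩ := Pool.Agent.N871.S15.value_one
  rw [EE_one] at hf hv
  refine ⟨f, hf, ?_⟩
  rw [hv]
  push_cast
  ring

end Pool.Agent.N875.K15
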