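import Pool.Agent.N875.K15.Stm
import Pool.Agent.N875.K17.Non
import Pool.Agent.N875.D15.Cls2

/-!
# Project K15: consequences of the criterion `Sg15 m`
-/

set_option autoImplicit false
set_option linter.unusedVariables false

open Finset

namespace Pool.Agent.N875.K15

open Pool.Agent.N875.X15
open Pool.Agent.N875.P17 (Lm al al_odd row_sum)
open Pool.Agent.N809.P17 (al_total)
open Pool.Agent.N809.PQ (B3 B5 Sol15 Sg15 w15 sg15_parity)
open Pool.Agent.N875.K17 (PR_nonempty)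

variable {m : ℤ}

lemma ra5_zero {p : ℕ} (hp : p.Prime) (hp2 : p ≠ 2) (h : jacobiSym p 5 = 1) : ra p 5 = 0 := by
  have e : jacobiSym ((5 : ℕ) : ℤ) p = jacobiSym (p : ℤ) 5 :=
    jacobiSym.quadratic_reciprocity_one_mod_four (by norm_num) (hp.odd_of_ne_two hp2)
  unfold ra
  rw [ch_odd hp2]
  have e2 : ((5 : ℕ) : ℤ) = 5 := rfl
  rw [e2] at e
  rw [e, h, if_pos rfl]

lemma ra5_ps {p : ℕ} (hp2 : p ≠ 2) (h : jacobiSym p 5 = 1) : ra 5 (ps m p) = 0 := by
  have h' : jacobiSym (ps m p) 5 = 1 := by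
    rw [ps_odd hp2]
    unfold sgp
    split_ifs with h4
    · exact h
    · rw [jacobiSym.neg _ (by decide)]
      have : ZMod.χ₄ ((5 : ℕ) : ZMod 4) = 1 := by decide
      rw [this, one_mul]
      exact h
  unfold ra
  rw [ch_odd (by norm_num)]
  exact if_pos h'

/-- no ramified prime is a nonsquare modulo `5` -/
lemma sq5 (hs : Squarefree m) (hcon : ∀ p ∈ PR m, p ≠ 5 → jacobiSym p 5 ≠ -1) :
    m % 4 = 1 ∧ ∀ p ∈ PR m, p ≠ 5 → p.Prime ∧ p ≠ 2 ∧ (p : ℤ) ∣ m ∧ jacobiSym p 5 = 1 := by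
  have hm0 := hs.ne_zero
  have h2 : 2 ∉ PR m := fun h => hcon 2 h (by norm_num) (by decide +kernel)
  refine ⟨?_, fun p hp hp5 => ?_⟩
  · by_contra h4
    exact h2 ((two_mem_PR hm0).2 h4)
  · obtain ⟨hpp, hram⟩ := (mem_PR hm0).1 hp
    have hp2 : p ≠ 2 := by
      rintro rfl
      exact h2 hp
    refine ⟨hpp, hp2, ?_, ?_⟩
    · rcases hram with h | h
      · exact h
      · exact absurd h.1 hp2
    · have h3 : Int.gcd (p : ℤ) ((5 : ℕ) : ℤ) = 1 := by
        rw [Int.gcd_natCast_natCast]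
        exact (Nat.coprime_primes hpp (by norm_num)).2 hp5
      rcases jacobiSym.eq_one_or_neg_one h3 with h4 | h4
      · exact h4
      · exact absurd h4 (hcon p hp hp5)

/-- `5` ramified -/
theorem nt5r (hs : Squarefree m) (h5m : m ≠ 5) (hS : Sg15 m) (h5 : (5 : ℤ) ∣ m) :
    ∃ p : ℕ, p ∈ PR m ∧ p ≠ 5 ∧ jacobiSym p 5 = -1 := by
  classical
  have hm0 := hs.ne_zero
  by_contra hcon
  push Not at hcon
  obtain ⟨h4, hall⟩ := sq5 hs hcon
  have h5P : 5 ∈ PR m := (mem_PR hm0).2 ⟨by norm_num, Or.inl h5⟩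
  have e5 : sgp 5 = 5 := by decide
  obtain ⟨q, hq, hq5⟩ : ∃ q ∈ PR m, q ≠ 5 := by
    by_contra hcon
    push Not at hcon
    have e : PR m = {5} := by
      ext x
      rw [Finset.mem_singleton]
      exact ⟨fun h => hcon x h, fun h => h ▸ h5P⟩
    have h6 := prod_PR hs
    rw [e, Finset.prod_singleton, ps_odd (by norm_num), e5] at h6
    exact h5m h6.symm
  have key := hS (fun _ => 0) (fun q => if q = 5 then 1 else 0) 0 0 0
    ⟨fun _ => rfl, fun _ => rfl, fun _ => rfl, fun p hp => by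
      rw [Finset.sum_eq_single_of_mem 5 h5P (by
        intro q _ hq
        rw [if_neg hq, mul_zero]), if_pos rfl, mul_one, zero_mul, zero_mul, add_zero, add_zero]
      by_cases hp5 : p = 5
      · subst hp5
        unfold Lm
        rw [if_pos rfl]
        refine Finset.sum_eq_zero fun r hr => ?_
        rw [Finset.mem_erase] at hr
        obtain ⟨-, a2, -, a4⟩ := hall r hr.2 hr.1
        exact ra5_ps a2 a4
      · obtain ⟨a1, a2, -, a4⟩ := hall p hp hp5
        unfold Lm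
        rw [if_neg hp5, ps_odd (by norm_num), e5]
        exact ra5_zero a1 a2 a4, fun q hq => by simp, fun _ => by
      rw [Finset.sum_eq_single_of_mem 5 h5P (by
        intro q _ hq
        rw [if_neg hq, mul_zero]), if_pos rfl, mul_one, al_odd (by norm_num), e5,
        if_neg (by norm_num), add_zero], fun _ => by simp, fun h => by
      exfalso
      unfold B5 at h
      omega⟩
  obtain ⟨-, -, α, β, -, -, hβ⟩ := key
  have k1 := hβ 5 h5P
  have k2 := hβ q hq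
  rw [if_pos rfl] at k1
  rw [if_neg hq5, ← k1] at k2
  exact absurd k2 (by decide)

/-- `m > 0`, `5` split and `3` not inert -/
theorem nt5s (hs : Squarefree m) (h1 : m ≠ 1) (hS : Sg15 m) (h0 : 0 < m)
    (h5 : jacobiSym m 5 = 1) (h3 : m % 3 ≠ 2) :
    ∃ p : ℕ, p ∈ PR m ∧ p ≠ 5 ∧ jacobiSym p 5 = -1 := by
  classical
  have hm0 := hs.ne_zero
  by_contra hcon
  push Not at hcon
  obtain ⟨h4, hall⟩ := sq5 hs hcon
  have h5P : 5 ∉ PR m := by
    intro h
    rcases ((mem_PR hm0).1 h).2 with h2 | h2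
    · have h6 : jacobiSym m 5 = 0 := by
        rw [jacobiSym.mod_left]
        have : m % ((5 : ℕ) : ℤ) = 0 := Int.emod_eq_zero_of_dvd h2
        rw [this]
        exact jacobiSym.zero_left (by norm_num)
      rw [h6] at h5
      norm_num at h5
    · exact absurd h2.1 (by norm_num)
  obtain ⟨p0, hp0⟩ := PR_nonempty hm0 h1 (by omega)
  set M : Matrix {p // p ∈ PR m} {p // p ∈ PR m} (ZMod 2) := fun p q => Lm m p.1 q.1 with hM
  have hdet : M.det = 0 := by
    rw [← Matrix.exists_mulVec_eq_zero_iff]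
    refine ⟨fun _ => 1, fun h => ?_, ?_⟩
    · have := congrFun h ⟨p0, hp0⟩
      exact absurd this (by simp)
    · funext p
      rw [Matrix.mulVec, dotProduct]
      simp only [mul_one, Pi.zero_apply]
      exact (Finset.sum_coe_sort (PR m) fun q => Lm m p.1 q).trans (row_sum p.2)
  obtain ⟨v, hv0, hv⟩ := Matrix.exists_vecMul_eq_zero_iff.2 hdet
  set x : ℕ → ZMod 2 := fun p => if h : p ∈ PR m then v ⟨p, h⟩ else 0 with hx
  have key := hS x (fun _ => 0) 0 0 0 ⟨fun _ => rfl, fun _ => rfl, fun _ => rfl,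
    fun p hp => by simp, fun q hq => by
      have h2 := congrFun hv ⟨q, hq⟩
      rw [Matrix.vecMul, dotProduct] at h2
      rw [zero_mul, zero_mul, add_zero, add_zero, ← Finset.sum_coe_sort]
      rw [Pi.zero_apply] at h2
      rw [← h2]
      refine Finset.sum_congr rfl fun p _ => ?_
      simp only [hx, hM]
      rw [dif_pos p.2, mul_comm], fun _ => by simp, fun h => absurd h h3, fun _ => by
      rw [Finset.sum_eq_zero, Finset.sum_eq_zero, add_zero, add_zero]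
      · intro q _
        rw [mul_zero]
      · intro p hp
        obtain ⟨a1, a2, -, a4⟩ := hall p hp (fun h => h5P (h ▸ hp))
        rw [ra5_zero a1 a2 a4, zero_mul]⟩
  obtain ⟨-, -, α, β, hα, hx2, -⟩ := key
  rw [if_pos h0] at hα
  apply hv0
  funext p
  have h3 := hx2 p.1 p.2
  rw [← hα, ite_self] at h3
  simp only [hx] at h3
  rw [dif_pos p.2] at h3
  exact h3

/-- a negative class -/
theorem ntp (hs : Squarefree m) (h1 : m ≠ 1) (hS : Sg15 m) (h0 : 0 < m) (h3 : m % 3 ≠ 2) :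
    m % 4 = 3 ∨ ∃ p : ℕ, p.Prime ∧ (p : ℤ) ∣ m ∧ p % 4 = 3 := by
  classical
  have hm0 := hs.ne_zero
  by_contra hcon
  push Not at hcon
  obtain ⟨h4, hcon⟩ := hcon
  have hodd : ∀ q ∈ PR m, q ≠ 2 → al m q = 0 := by
    intro q hq hq2
    obtain ⟨hqp, hram⟩ := (mem_PR hm0).1 hq
    have hqm : (q : ℤ) ∣ m := by
      rcases hram with h | h
      · exact h
      · exact absurd h.1 hq2
    have h2 := hcon q hqp hqm
    have h3 := hqp.eq_two_or_odd
    have hpos := hqp.pos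
    rw [al_odd hq2]
    unfold sgp
    rw [if_pos (show q % 4 = 1 by omega), if_neg (by omega)]
  have hall : ∀ q ∈ PR m, al m q = 0 := by
    intro q hq
    by_cases hq2 : q = 2
    · subst hq2
      have h2 := al_total hs
      rw [if_neg (by omega), Finset.sum_eq_single_of_mem 2 hq (fun b hb hb2 => hodd b hb hb2)] at h2
      exact h2
    · exact hodd q hq hq2
  obtain ⟨p, hp, hpm⟩ := Nat.exists_prime_and_dvd (n := m.natAbs) (by omega)
  have hpm' : (p : ℤ) ∣ m := Int.natCast_dvd.2 hpm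
  have key := hS (fun _ => 0) (fun _ => 0) 1 0 0 ⟨fun h => absurd h (by omega), fun _ => rfl,
    fun _ => rfl, fun p hp => by simp, fun q hq => by
      rw [hall q hq]
      simp, fun _ => by simp, fun h => absurd h h3, fun _ => by simp⟩
  obtain ⟨-, -, α, β, hα, hx2, -⟩ := key
  rw [if_pos h0] at hα
  have h5 := hx2 p ((mem_PR hm0).2 ⟨hp, Or.inl hpm'⟩)
  rw [if_pos hpm', ← hα] at h5
  exact absurd h5 (by decide)

/-- the root number -/
theorem rt_of_w15 (hm0 : m ≠ 0) (h : w15 m = 1) : Rt m := by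
  have h5 : jacobiSym m 5 = 1 ↔ m % 5 = 1 ∨ m % 5 = 4 := by
    rw [jacobiSym.mod_left]
    have h5 : m % 5 = 0 ∨ m % 5 = 1 ∨ m % 5 = 2 ∨ m % 5 = 3 ∨ m % 5 = 4 := by omega
    push_cast
    rcases h5 with h5 | h5 | h5 | h5 | h5 <;> rw [h5] <;> norm_num
  unfold w15 at h
  unfold Rt
  rw [h5]
  have h6 : jacobiSym m 5 ≠ 1 ↔ ¬ (m % 5 = 1 ∨ m % 5 = 4) := not_congr h5
  rw [h6]
  split_ifs at h with a1 a2 a3 a3 a2 a3 a3 <;> omega

theorem rt_of (hs : Squarefree m) (h1 : m ≠ 1) (hm1 : m ≠ -1) (hS : Sg15 m) : Rt m :=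
  rt_of_w15 hs.ne_zero (sg15_parity hs h1 hm1 hS)

/-- the hypotheses of the count -/
theorem cnt_hyps (hs : Squarefree m) (h1 : m ≠ 1) (hm1 : m ≠ -1) (h5m : m ≠ 5) (hS : Sg15 m) :
    Rt m ∧ (((5 : ℤ) ∣ m ∨ (0 < m ∧ jacobiSym m 5 = 1 ∧ m % 3 ≠ 2)) →
      ∃ p : ℕ, p ∈ PR m ∧ p ≠ 5 ∧ jacobiSym p 5 = -1) ∧
    (0 < m ∧ m % 3 ≠ 2 → m % 4 = 3 ∨ ∃ p : ℕ, p.Prime ∧ (p : ℤ) ∣ m ∧ p % 4 = 3) := by
  refine ⟨rt_of hs h1 hm1 hS, ?_, fun h => ntp hs h1 hS h.1 h.2⟩
  rintro (h | ⟨h, h', h''⟩)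
  · exact nt5r hs h5m hS h
  · exact nt5s hs h1 hS h h' h''

end Pool.Agent.N875.K15
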