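import Pool.Agent.N875.K15.Val
import Pool.Agent.N875.K15.Non
import Pool.Agent.N974.T15.Ex5

/-!
# Project K15 (helper875): the values, from `Pool/Agent/N974/T15/Ex5.lean`
-/

set_option autoImplicit false
set_option linter.style.haveILetI false

namespace Pool.Agent.N875.K15

open Pool.Agent.N875.X15 (PR WN Em)
open Pool.Agent.N809.PQ (Sg15 w15)
open Pool.Agent.Y700 (IsL Omega tamProd)
open Pool.Agent.N875.S15 (TT w15_cases van)
open Pool.Agent.N218.T15 (EE tamProd_EE)
open Pool.Agent.N974.T15 (ccx_all)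

theorem TT_pos (m : ℤ) : 0 < TT m := by
  unfold Pool.Agent.N875.S15.TT Pool.Agent.N218.T15.t3 Pool.Agent.N218.T15.t5
  refine Nat.mul_pos (pow_pos (by norm_num) _) (Nat.mul_pos ?_ ?_) <;> split_ifs <;> norm_num

theorem t_VAL : S_VAL := by
  intro m hs h1 hm1
  obtain ⟨hO, f, y, hf, hy, hv⟩ := ccx_all hs h1 hm1
  have hW : EE m = Wm m := rfl
  rw [tamProd_EE hs] at hv
  rw [hW] at hO hf hv
  refine ⟨f, y, hf, ?_, hy, fun hR => ?_⟩
  · rw [hv]
    unfold TT
    push_cast
    ring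
  · have hw : w15 m = -1 := by
      rcases w15_cases m with h | h
      · exact absurd (rt_of_w15 hs.ne_zero h) hR
      · exact h
    obtain ⟨-, g, hg, hg0⟩ := van hs hw
    rw [hW] at hg
    rw [Pool.Agent.Y700.IsL.unique hf hg, hg0] at hv
    have h2 := (Complex.ofReal_eq_zero.1 hv.symm)
    have h3 : (0 : ℝ) < (TT m : ℝ) := by exact_mod_cast TT_pos m
    have h4 : Omega (Wm m) * (TT m : ℝ) / 16 ≠ 0 := by positivity
    rcases mul_eq_zero.1 h2 with h5 | h5
    · exact_mod_cast (pow_eq_zero_iff two_ne_zero).1 h5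
    · exact absurd h5 h4

end Pool.Agent.N875.K15
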