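import Pool.Agent.N875.K15.Thm
import Pool.Agent.N875.K15.Val1
import Pool.Agent.N875.K15.Val2
import Pool.Agent.N875.K15.Cls
import Pool.Agent.N875.K17.Fin
import Pool.Agent.N767.K15.GN
import Pool.Agent.N966.K15.GU
import Pool.Agent.N327.K15.T2N
import Pool.Agent.N966.K15.N3
import Pool.Agent.N286.K15.ThreeU
import Pool.Agent.N82.K15.N5
import Pool.Agent.N31.K15.U5
import Pool.Agent.N756.K15.InfMin
import Pool.Agent.N521.K15.Cnt
import Pool.Agent.N247.K15.Tor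
import Pool.Agent.N72.K15.LPR

/-!
# Project K15: all the parts except `2U`, `TAM`
-/

set_option autoImplicit false

namespace Pool.Agent.N875.K15

theorem hyps0 (h2U : S_2U) (hTAM : S_TAM) : Hyps where
  DESC := Pool.Agent.N891.QB.t_DESC
  NRM := Pool.Agent.N803.K17.t_NRM
  GN := Pool.Agent.N767.K15.t_GN
  N2 := Pool.Agent.N327.K15.t_2N
  N3 := Pool.Agent.N966.K15.t_3N
  N5 := Pool.Agent.N82.K15.t_5N
  GU := Pool.Agent.N966.K15.t_GU
  U2 := h2U
  U3 := Pool.Agent.N286.K15.t_3U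
  U5 := Pool.Agent.N31.K15.t_5U
  INF := Pool.Agent.N756.K15.t_INF
  CNT := Pool.Agent.N521.K15.t_CNT
  TOR := Pool.Agent.N247.K15.t_TOR
  LPR := Pool.Agent.N72.K15.t_LPR
  TAM := hTAM
  MIN := Pool.Agent.N756.K15.t_MIN
  VAL1 := t_VAL1
  VAL := t_VAL

end Pool.Agent.N875.K15
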