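import Pool.Agent.N875.K15.Val
import Pool.Agent.N875.K15.Mod
import Pool.Agent.N875.K15.Non
import Pool.Agent.N875.K17.Thm
import Pool.Agent.N875.K17.Den
import Pool.Agent.N916.PQ.Main15

/-!
# Project K15 (helper875): the theorem from all the parts
-/

set_option autoImplicit false
set_option linter.unusedVariables false

open NumberField IsDedekindDomain Module NumberField.InfinitePlace

namespace Pool.Agent.N875.K15

open scoped Classical

open Pool.Agent.TH841.NF.D (Sha)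
open Pool.Agent.N856.QB (S_DESC)
open Pool.Agent.N875.X15 (PR Fin2 WN Em EQm)
open Pool.Agent.N809.PQ (Sg15)
open Pool.Agent.N875.K17 (Qd Dm S_NRM PR_Dm fund_core fund_Dm)
open Pool.Agent.Y682.XF (base factor Tam realPeriod Sha2)
open Pool.Agent.N919.BS (Fund core NF)
open Pool.Agent.Y700 (VR)

/-- all the parts -/
structure Hyps : Prop where
  DESC : S_DESC
  NRM : S_NRM
  GN : S_GN
  N2 : S_2N
  N3 : S_3N
  N5 : S_5N
  GU : S_GU
  U2 : S_2U
  U3 : S_3U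
  U5 : S_5U
  INF : S_INF
  CNT : S_CNT
  TOR : S_TOR
  LPR : S_LPR
  TAM : S_TAM
  MIN : S_MIN
  VAL1 : S_VAL1
  VAL : S_VAL

section

variable {m : ℤ} {K : Type} [Field K] [NumberField K] {r : K}

/-- **`Ш(E/K)[2^∞]`** -/
theorem sha_all (H : Hyps) (hm : Squarefree m) (h1 : m ≠ 1) (hm1 : m ≠ -1) (h5 : m ≠ 5)
    (hS : Sg15 m) (hq : Qd m K r) : dd m ≤ tt m ∧ (∀ x : Sha2 K (WN 1), 2 • x = 0) ∧
      Nat.card (Sha2 K (WN 1)) = 4 ^ (tt m - dd m) := by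
  obtain ⟨k1, k2, k3⟩ := cnt_hyps hm h1 hm1 h5 hS
  obtain ⟨S, hS1, hS2, hS3, hk⟩ := H.CNT m hm h1 hm1 h5 k1 k2 k3
  obtain ⟨h2, h3, h4⟩ := sha_main H.DESC H.NRM H.GN H.N2 H.N3 H.N5 H.GU H.U2 H.U3 H.U5 H.INF hm h1
    hm1 h5 hS hq hS1 hS2 hS3 hk
  refine ⟨by omega, h3, ?_⟩
  rw [h4]
  congr 1
  omega

/-! ### dictionary -/

theorem tt_Dm (h0 : m ≠ 0) : ((Dm m).natAbs.primeFactors.erase 5).card = tt m := by
  rw [PR_Dm h0]
  rfl

theorem jac_Dm : jacobiSym (Dm m) 5 = jacobiSym m 5 := by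
  unfold Dm
  split_ifs with h
  · rfl
  · rw [jacobiSym.mul_left]
    have : jacobiSym 4 5 = 1 := by decide +kernel
    rw [this, one_mul]

theorem three_Dm : (3 : ℤ) ∣ Dm m ↔ (3 : ℤ) ∣ m := by
  unfold Dm
  split_ifs <;> omega

theorem five_Dm : (5 : ℤ) ∣ Dm m ↔ (5 : ℤ) ∣ m := by
  unfold Dm
  split_ifs <;> omega

theorem mod3_Dm : Dm m % 3 = m % 3 := by
  unfold Dm
  split_ifs <;> omega

theorem vr_four (m : ℤ) : VR (EQm (4 * m)) (EQm m) 2 0 0 0 := by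
  refine ⟨by norm_num, ?_, ?_, ?_, ?_, ?_⟩ <;> simp [Em] <;> ring

theorem fin2_four {m : ℤ} (h0 : m ≠ 0) : Fin2 (EQm (4 * m)) ↔ Fin2 (EQm m) := by
  have hT : Pool.Agent.Z702.S_TRN := Pool.Agent.Z932.Z702.t_TRN
  obtain ⟨h1, h2, -⟩ := hT _ _ _ _ _ _ (vr_four m) (Pool.Agent.N875.X15.EQm_Δ_ne h0)
  exact and_congr h1 h2

/-- rank zero and `Ш[2] = 0` for the twist -/
theorem sel_iff (hm : Squarefree m) (h1 : m ≠ 1) (hm1 : m ≠ -1) :
    (Finite (base (Em (Dm m)) ℚ).toAffine.Point ∧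
      ∀ x : Sha (base (Em (Dm m)) ℚ), 2 • x = 0 → x = 0) ↔ Sg15 m := by
  have h3 : Fin2 (EQm m) ↔ Sg15 m := by
    rw [Pool.Agent.N875.D15.fin2_iff_sg15 hm]
    exact ⟨fun h => h.resolve_right (by rintro (h | h); exacts [h1 h, hm1 h]), Or.inl⟩
  rw [← h3]
  have h1 := (Pool.Agent.R413.SJ.ShaQ.two_iff (EQm (Dm m))).symm
  have h2 : (Finite (base (Em (Dm m)) ℚ).toAffine.Point ∧
      ∀ x : Sha (base (Em (Dm m)) ℚ), 2 • x = 0 → x = 0) ↔ Fin2 (EQm (Dm m)) := by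
    unfold Pool.Agent.N875.X15.Fin2
    refine and_congr Iff.rfl ?_
    refine Iff.trans h1 (forall_congr' fun x => ?_)
    rw [two_nsmul]
  rw [h2]
  unfold Dm
  split_ifs with h
  · exact Iff.rfl
  · exact fin2_four hm.ne_zero

end

/-- **The density of the criterion.** -/
theorem dens_all {Q : ℤ → Prop} (S : Finset ℤ) (B : ℕ)
    (h1 : ∀ D, Q D → (Fund D ∧ Sg15 (core D)) ∨ D ∈ S)
    (h2 : ∀ D, Fund D → Sg15 (core D) → Q D ∨ D ∈ S ∨ D.natAbs.primeFactors.card < B) :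
    Filter.Tendsto (fun X : ℕ => (Pool.Agent.N875.K17.ct Q X : ℝ) /
      (Pool.Agent.N875.K17.ct (fun D => Fund D ∧ D ≠ 1) X : ℝ)) Filter.atTop
      (nhds (Pool.Agent.N916.GB.eta / 2)) :=
  Pool.Agent.N875.K17.dens Pool.Agent.N916.PQ.fd15 S B h1 h2

/-- one half of the fundamental discriminants have root number `+1` -/
theorem half15 : Filter.Tendsto (fun X : ℕ => (NF (fun d => Pool.Agent.N809.PQ.w15 d = 1) X : ℝ) /
    (NF (fun _ => True) X : ℝ)) Filter.atTop (nhds (1 / 2)) := by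
  have h := Pool.Agent.N916.PQ.half_NF Pool.Agent.N916.PQ.hf15
  have e : (fun d => Pool.Agent.N916.PQ.f15 d = true) =
      fun d => Pool.Agent.N809.PQ.w15 d = 1 :=
    funext fun d => propext (Pool.Agent.N916.PQ.f15_w15 d)
  rw [e] at h
  exact h

end Pool.Agent.N875.K15
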